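import Pool.Agent.Helper55.RT.Spec

set_option autoImplicit false

open Polynomial

namespace Pool.Agent.Helper12.Thin.BOT

open Pool.Agent.Helper55.RT Pool.Agent.Helper55.RL

lemma irr_map {A B : Type} [Field A] [Field B] (φ : A ≃+* B) (q : A[X]) :
    Irreducible (q.map (φ : A →+* B)) ↔ Irreducible q :=
  MulEquiv.irreducible_iff (Polynomial.mapEquiv φ)

lemma dvd_map {A B : Type} [Field A] [Field B] (φ : A ≃+* B) (q r : A[X]) :
    q.map (φ : A →+* B) ∣ r.map (φ : A →+* B) ↔ q ∣ r :=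
  map_dvd_iff (Polynomial.mapEquiv φ)

lemma indep_map {A B : Type} [Field A] [Field B] (φ : A ≃+* B) (p : ℕ) (D s : A[X])
    (h : IndepP p D s) : IndepP p (D.map (φ : A →+* B)) (s.map (φ : A →+* B)) := by
  intro u S hu hS hq hd hD hP
  obtain ⟨S₀, rfl⟩ := (Polynomial.mapEquiv φ).surjective S
  obtain ⟨u₀, rfl⟩ := φ.surjective u
  change (S₀.map (φ : A →+* B)).Monic at hS
  change (S₀.map (φ : A →+* B)) ∣ _ at hd
  change ¬ _ ∣ (S₀.map (φ : A →+* B)) at hD
  change PwMod p _ (C ((φ : A →+* B) u₀) * (S₀.map (φ : A →+* B))) at hP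
  have h1 := h u₀ S₀ (by
      intro h0
      apply hu
      rw [h0, map_zero]) (Polynomial.monic_map_iff.1 hS) (by
      intro q hq1 hq2
      refine hq (q.map (φ : A →+* B)) ((irr_map φ q).2 hq1) ?_
      change (q.map (φ : A →+* B)) ^ p ∣ (S₀.map (φ : A →+* B))
      rw [← Polynomial.map_pow]
      exact (dvd_map φ _ _).2 hq2) (by
      rw [← Polynomial.map_pow] at hd
      exact (dvd_map φ _ _).1 hd) (by
      intro h0
      exact hD ((dvd_map φ _ _).2 h0)) (by
      obtain ⟨z, hz⟩ := hP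
      obtain ⟨z₀, rfl⟩ := (Polynomial.mapEquiv φ).surjective z
      refine ⟨z₀, (dvd_map φ _ _).1 ?_⟩
      rw [Polynomial.map_sub, Polynomial.map_pow, Polynomial.map_mul, Polynomial.map_C]
      exact hz)
  obtain ⟨h2, v, hv⟩ := h1
  refine ⟨?_, φ v, ?_⟩
  · rw [h2]
    exact map_one (Polynomial.mapEquiv φ)
  · rw [← map_pow, hv]

theorem main : Q_BOT := by
  intro p κ k' _ _ _ κ₁ hκ D s
  have hb : Function.Bijective (algebraMap κ κ₁) := by
    refine ⟨(algebraMap κ κ₁).injective, ?_⟩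
    rintro ⟨x, hx⟩
    have hx' := hx
    rw [hκ, IntermediateField.mem_bot] at hx'
    obtain ⟨y, hy⟩ := hx'
    exact ⟨y, Subtype.ext hy⟩
  let φ : κ ≃+* κ₁ := RingEquiv.ofBijective (algebraMap κ κ₁) hb
  have hφ : (φ : κ →+* κ₁) = algebraMap κ κ₁ := RingHom.ext fun _ => rfl
  rw [← hφ]
  exact ⟨(irr_map φ D).2, indep_map φ p D s⟩

end Pool.Agent.Helper12.Thin.BOT
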