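import Pool.Agent.Helper55.RT.Spec

set_option autoImplicit false

open Polynomial

namespace Pool.Agent.Helper12.Thin.GRP

open Pool.Agent.Helper55.RT Pool.Agent.Helper55.RG

lemma charZero' (k k' : Type) [Field k] [CharZero k] [Field k'] [Algebra k k'] : CharZero k' :=
  charZero_of_injective_algebraMap (algebraMap k k').injective

lemma algClosed (k k' : Type) [Field k] [CharZero k] [Field k'] [Algebra k k']
    [IsSepClosure k k'] : IsAlgClosed k' := by
  have : IsAlgClosure k k' := inferInstance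
  exact IsAlgClosure.isAlgClosed k

section

variable {k k' : Type} [Field k] [CharZero k] [Field k'] [Algebra k k']

lemma theta_inj {n : ℕ} {D : k[X]} {θ : Fin n → k'} (hD : Irreducible D)
    (hθ : D.map (algebraMap k k') = ∏ i, (X - C (θ i))) : Function.Injective θ := by
  have h1 : (D.map (algebraMap k k')).Separable := hD.separable.map
  rw [hθ] at h1
  exact separable_prod_X_sub_C_iff.1 h1

lemma exists_root [IsSepClosure k k'] (κ₀ : IntermediateField k k') (g : κ₀[X][X]) (hg : g.Monic)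
    (hg0 : 0 < g.natDegree) (t : k') : ∃ b : k', ev2 (algebraMap κ₀ k') t b g = 0 := by
  have : IsAlgClosed k' := algClosed k k'
  have h1 : (g.map (eval₂RingHom (algebraMap κ₀ k') t)).Monic := hg.map _
  have h2 : (g.map (eval₂RingHom (algebraMap κ₀ k') t)).natDegree = g.natDegree :=
    hg.natDegree_map _
  obtain ⟨b, hb⟩ := IsAlgClosed.exists_root (g.map (eval₂RingHom (algebraMap κ₀ k') t)) (by
    intro h0
    rw [degree_eq_natDegree h1.ne_zero, h2] at h0
    have : g.natDegree = 0 := by exact_mod_cast h0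
    omega)
  refine ⟨b, ?_⟩
  unfold ev2
  rw [← eval_map]
  exact hb

omit [CharZero k] in
/-- an automorphism over `κ₀` which fixes `κ` pointwise -/
lemma mk_aut [Normal k k'] (κ₀ κ : IntermediateField k k') [Normal k κ] (s : k' ≃ₐ[κ₀] k')
    (ν : k' ≃ₐ[κ] k') : ∃ ν' : k' ≃ₐ[κ] k', ∀ x, ν' x = s (ν (s.symm x)) := by
  let e : k' ≃+* k' := (s.symm.toRingEquiv.trans ν.toRingEquiv).trans s.toRingEquiv
  refine ⟨AlgEquiv.ofRingEquiv (f := e) ?_, fun x => rfl⟩
  intro x
  have h1 : (s.symm.restrictScalars k) (x : k') ∈ κ := by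
    have h2 : κ.map ((s.symm.restrictScalars k : k' ≃ₐ[k] k') : k' →ₐ[k] k') ≤ κ :=
      IntermediateField.normal_iff_forall_map_le'.1 inferInstance (s.symm.restrictScalars k)
    exact h2 ⟨x, x.2, rfl⟩
  have h2 : ν (s.symm (x : k')) = s.symm (x : k') := ν.commutes ⟨_, h1⟩
  change s (ν (s.symm (x : k'))) = x
  rw [h2, AlgEquiv.apply_symm_apply]

end

theorem main : Q_GRP := by
  intro k k' _ _ _ _ _ κ₀ κ _ hκ g hg hg0 n D θ hn hD hθ hW hex
  have hinj := theta_inj hD hθ
  have hcz : CharZero k' := charZero' k k'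
  have hGk : IsGalois k k' := IsSepClosure.isGalois (k := k) (K := k')
  let N : Subgroup (Equiv.Perm (Fin n)) :=
    { carrier := {π | ∃ ν : k' ≃ₐ[κ] k', ∀ i, ν (θ i) = θ (π i)}
      mul_mem' := by
        rintro π₁ π₂ ⟨ν₁, h₁⟩ ⟨ν₂, h₂⟩
        refine ⟨ν₂.trans ν₁, fun i => ?_⟩
        rw [AlgEquiv.trans_apply, h₂, h₁]
        rfl
      one_mem' := ⟨AlgEquiv.refl, fun i => rfl⟩
      inv_mem' := by
        rintro π ⟨ν, h⟩
        refine ⟨ν.symm, fun i => ?_⟩
        rw [AlgEquiv.symm_apply_eq, h]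
        simp }
  have hNn : N.Normal := by
    constructor
    rintro π ⟨ν, hν⟩ τ
    have hθ' : D.map (algebraMap k k') = ∏ i, (X - C (θ (τ i))) := by
      rw [hθ]
      exact (Equiv.prod_comp τ (fun i => X - C (θ i))).symm
    have h0 : (⟨0, by omega⟩ : Fin n) ≠ ⟨1, by omega⟩ := by
      intro h
      simp at h
    obtain ⟨b, hb⟩ := exists_root κ₀ g hg hg0 (θ ⟨0, by omega⟩)
    obtain ⟨c, hc⟩ := exists_root κ₀ g hg hg0 (θ ⟨1, by omega⟩)
    obtain ⟨b', hb'⟩ := exists_root κ₀ g hg hg0 (θ (τ ⟨0, by omega⟩))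
    obtain ⟨c', hc'⟩ := exists_root κ₀ g hg hg0 (θ (τ ⟨1, by omega⟩))
    obtain ⟨s, hs, -, -⟩ := hW θ (fun i => θ (τ i)) hθ hθ' _ _ h0 b c b' c' hb hc hb' hc'
    obtain ⟨ν', hν'⟩ := mk_aut κ₀ κ s ν
    refine ⟨ν', fun i => ?_⟩
    have h1 : s.symm (θ i) = θ (τ⁻¹ i) := by
      rw [AlgEquiv.symm_apply_eq, hs]
      simp
    rw [hν', h1, hν, hs]
    simp [Equiv.Perm.mul_apply]
  have hNt : Nontrivial N := by
    obtain ⟨i, hi⟩ := hex
    have hG : IsGalois κ k' := inferInstance
    have h1 : ∃ ν : k' ≃ₐ[κ] k', ν (θ i) ≠ θ i := by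
      by_contra h
      push Not at h
      have h2 := (InfiniteGalois.mem_bot_iff_fixed (k := κ) (K := k') (θ i)).2 h
      rw [IntermediateField.mem_bot] at h2
      obtain ⟨y, hy⟩ := h2
      apply hi
      rw [← hy]
      exact y.2
    obtain ⟨ν, hν⟩ := h1
    have h2 : ∀ l, ∃ m, ν (θ l) = θ m := by
      intro l
      have h3 : (D.map (algebraMap k k')).eval (θ l) = 0 := by
        rw [hθ, eval_prod]
        exact Finset.prod_eq_zero (Finset.mem_univ l) (by simp)
      have h4 : (D.map (algebraMap k k')).eval (ν (θ l)) = 0 := by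
        have h5 : aeval (ν.restrictScalars k (θ l)) D = ν.restrictScalars k (aeval (θ l) D) :=
          aeval_algHom_apply (ν.restrictScalars k) (θ l) D
        rw [eval_map_algebraMap] at h3 ⊢
        rw [h3, map_zero] at h5
        exact h5
      rw [hθ, eval_prod, Finset.prod_eq_zero_iff] at h4
      obtain ⟨m, -, hm⟩ := h4
      refine ⟨m, ?_⟩
      rw [eval_sub, eval_X, eval_C] at hm
      exact sub_eq_zero.1 hm
    choose f hf using h2
    have hfi : Function.Injective f := by
      intro a b hab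
      have h3 : ν (θ a) = ν (θ b) := by rw [hf, hf, hab]
      exact hinj (ν.injective h3)
    let π : Equiv.Perm (Fin n) := Equiv.ofBijective f (Finite.injective_iff_bijective.1 hfi)
    have hπ : π ∈ N := ⟨ν, fun l => hf l⟩
    refine (Subgroup.nontrivial_iff_exists_ne_one N).2 ⟨π, hπ, ?_⟩
    intro h
    apply hν
    rw [hf]
    have : π i = i := by rw [h]; rfl
    exact congrArg θ this
  have hle : alternatingGroup (Fin n) ≤ N :=
    Equiv.Perm.alternatingGroup_le_of_normal (by simpa using hn) hNt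
  intro π hπ
  exact hle hπ

end Pool.Agent.Helper12.Thin.GRP
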