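import Pool.Agent.Helper12.Thin.GRP

set_option autoImplicit false

open Polynomial

namespace Pool.Agent.Helper12.Thin.MIR

open Pool.Agent.Helper55.RT Pool.Agent.Helper55.RG Pool.Agent.Helper12.Thin.GRP

/-- a monic separable polynomial whose roots are conjugate over `j (E)` is irreducible -/
lemma irr_of_transitive {E N : Type} [Field E] [Field N] [IsAlgClosed N] (j : E →+* N)
    (f : E[X]) (hf : f.Monic) (hf0 : 0 < f.natDegree) (hs : (f.map j).Separable)
    (ht : ∀ b b' : N, eval₂ j b f = 0 → eval₂ j b' f = 0 →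
      ∃ c : N →+* N, (∀ x, c (j x) = j x) ∧ c b = b') : Irreducible f := by
  classical
  let := j.toAlgebra
  have hj : algebraMap E N = j := rfl
  obtain ⟨b, hb⟩ := IsAlgClosed.exists_root (f.map j) (by
    intro h0
    rw [degree_eq_natDegree (hf.map j).ne_zero, hf.natDegree_map] at h0
    have : f.natDegree = 0 := by exact_mod_cast h0
    omega)
  rw [IsRoot.def, eval_map] at hb
  have hint : IsIntegral E b := ⟨f, hf, hb⟩
  have hdvd : minpoly E b ∣ f := minpoly.dvd E b (by rw [aeval_def]; exact hb)
  have hroots : (f.map j).roots.toFinset ⊆ ((minpoly E b).map j).roots.toFinset := by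
    intro b' hb'
    rw [Multiset.mem_toFinset, mem_roots (hf.map j).ne_zero, IsRoot.def, eval_map] at hb'
    rw [Multiset.mem_toFinset, mem_roots ((minpoly.monic hint).map j).ne_zero, IsRoot.def,
      eval_map]
    obtain ⟨c, hc1, hc2⟩ := ht b b' hb hb'
    have h1 : eval₂ j b (minpoly E b) = 0 := by
      have := minpoly.aeval E b
      rwa [aeval_def] at this
    have h2 : c (eval₂ j b (minpoly E b)) = eval₂ (c.comp j) (c b) (minpoly E b) :=
      hom_eval₂ _ _ _ _
    have h3 : c.comp j = j := RingHom.ext hc1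
    rw [h1, map_zero, h3, hc2] at h2
    exact h2.symm
  have h1 : (f.map j).natDegree = (f.map j).roots.toFinset.card := by
    rw [Multiset.toFinset_card_of_nodup (nodup_roots hs)]
    exact (IsAlgClosed.splits (f.map j)).natDegree_eq_card_roots
  have h2 : f.natDegree ≤ (minpoly E b).natDegree := by
    rw [← hf.natDegree_map j, h1, ← (minpoly.monic hint).natDegree_map j]
    exact (Finset.card_le_card hroots).trans ((Multiset.toFinset_card_le _).trans (card_roots' _))
  have h3 : f = minpoly E b :=
    eq_of_monic_of_dvd_of_natDegree_le (minpoly.monic hint) hf hdvd h2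
  rw [h3]
  exact minpoly.irreducible hint

theorem main : Q_MIR := by
  intro k k' _ _ _ _ _ κ₀ κ h g hg hg0 D θ hD hθ hsep htr
  have hac : IsAlgClosed k' := algClosed k k'
  have : Fact (Irreducible D) := ⟨hD⟩
  rw [aeval_def] at hθ
  let j : AdjoinRoot D →+* k' := AdjoinRoot.lift (algebraMap κ k') θ hθ
  have hcomp : (j.comp (AdjoinRoot.mk D)).comp
      (mapRingHom (IntermediateField.inclusion h : κ₀ →+* κ)) =
      (evalRingHom θ).comp (mapRingHom (algebraMap κ₀ k')) := by
    refine Polynomial.ringHom_ext (fun a => ?_) ?_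
    · simp only [RingHom.comp_apply, coe_mapRingHom, map_C, coe_evalRingHom, eval_C]
      rw [AdjoinRoot.mk_C]
      exact AdjoinRoot.lift_of hθ
    · simp only [RingHom.comp_apply, coe_mapRingHom, map_X, coe_evalRingHom, eval_X]
      rw [AdjoinRoot.mk_X]
      exact AdjoinRoot.lift_root hθ
  set f := (g.map (mapRingHom (IntermediateField.inclusion h : κ₀ →+* κ))).map
    (AdjoinRoot.mk D) with hf
  have hfj : f.map j = (g.map (mapRingHom (algebraMap κ₀ k'))).map (evalRingHom θ) := by
    rw [hf, map_map, map_map, map_map, ← hcomp]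
  have hev : ∀ b : k', eval₂ j b f = ev2 (algebraMap κ₀ k') θ b g := by
    intro b
    unfold ev2
    rw [← eval_map, hfj, map_map, eval_map]
    congr 1
    refine Polynomial.ringHom_ext (fun a => ?_) ?_
    · simp
    · simp
  refine irr_of_transitive j f ((hg.map _).map _) ?_ (by rw [hfj]; exact hsep) ?_
  · rw [hf, (hg.map _).natDegree_map, hg.natDegree_map]
    exact hg0
  · intro b b' hb hb'
    rw [hev] at hb hb'
    obtain ⟨c, hc1, hc2⟩ := htr b b' hb hb'
    refine ⟨(c : k' →+* k'), ?_, hc2⟩
    have h1 : ((c : k' →+* k').comp j).comp (AdjoinRoot.mk D) = j.comp (AdjoinRoot.mk D) := by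
      refine Polynomial.ringHom_ext (fun a => ?_) ?_
      · simp only [RingHom.comp_apply]
        rw [AdjoinRoot.mk_C]
        have h2 : j (AdjoinRoot.of D a) = algebraMap κ k' a := AdjoinRoot.lift_of hθ
        rw [h2]
        exact c.commutes a
      · simp only [RingHom.comp_apply]
        rw [AdjoinRoot.mk_X]
        have h2 : j (AdjoinRoot.root D) = θ := AdjoinRoot.lift_root hθ
        rw [h2]
        exact hc1
    intro x
    obtain ⟨q, rfl⟩ := AdjoinRoot.mk_surjective x
    exact RingHom.congr_fun h1 q

end Pool.Agent.Helper12.Thin.MIR
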